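import Pool.Agent.Lib.P6aeb5f.CCC
import Pool.Agent.Lib.Pe09daa.Alg

/-!
# The Cohen algebra
-/

set_option autoImplicit false

open Set Cardinal

namespace Pool.Agent.Lib.P254f8a

open Pool.Agent.Lib.P6aeb5f Pool.Agent.Lib.Pe09daa.Neg

/-- Cohen conditions: finite partial functions from `A` to `Bool`. -/
@[ext] structure Cn (A : Type) where
  g : Finset (A × Bool)
  fn : ∀ a, (a, true) ∈ g → (a, false) ∈ g → False

variable {A : Type}

instance : PartialOrder (Cn A) where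
  le p q := q.g ⊆ p.g
  le_refl _ := Finset.Subset.refl _
  le_trans _ _ _ h h' := Finset.Subset.trans h' h
  le_antisymm _ _ h h' := Cn.ext (Finset.Subset.antisymm h' h)

theorem Cn.le_iff {p q : Cn A} : p ≤ q ↔ q.g ⊆ p.g := Iff.rfl

open Classical in
theorem Cn.union' {p q : Cn A} (h1 : ∀ a, (a, true) ∈ p.g → (a, false) ∈ q.g → False)
    (h2 : ∀ a, (a, false) ∈ p.g → (a, true) ∈ q.g → False) : ∃ r : Cn A, r ≤ p ∧ r ≤ q ∧
    ∀ x, x ∈ r.g → x ∈ p.g ∨ x ∈ q.g := by
  refine ⟨⟨p.g ∪ q.g, fun a h3 h4 => ?_⟩, Finset.subset_union_left, Finset.subset_union_right,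
    fun x hx => Finset.mem_union.1 hx⟩
  rcases Finset.mem_union.1 h3 with h3 | h3 <;> rcases Finset.mem_union.1 h4 with h4 | h4
  · exact p.fn a h3 h4
  · exact h1 a h3 h4
  · exact h2 a h4 h3
  · exact q.fn a h3 h4

theorem Cn.union {p q : Cn A} (h1 : ∀ a, (a, true) ∈ p.g → (a, false) ∈ q.g → False)
    (h2 : ∀ a, (a, false) ∈ p.g → (a, true) ∈ q.g → False) : ∃ r, r ≤ p ∧ r ≤ q := by
  obtain ⟨r, h3, h4, _⟩ := Cn.union' h1 h2
  exact ⟨r, h3, h4⟩

/-- The Cohen algebra. -/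
abbrev CA (A : Type) : Type := ROP (Cn A)

open Classical in
theorem ccc_cohen : CCC (CA A) := by
  intro I h1 h2
  by_contra hI
  have h3 : ∀ x : CA A, ∃ p : Cn A, x ∈ I → em p ≤ x := by
    intro x
    by_cases hx : x ∈ I
    · obtain ⟨p, hp⟩ := exists_em (h1 x hx)
      exact ⟨p, fun _ => hp⟩
    · exact ⟨⟨∅, by simp⟩, fun h => absurd h hx⟩
  choose p hp using h3
  have h4 : ¬ (univ : Set I).Countable := by
    rw [countable_univ_iff]
    exact fun h => hI (countable_coe_iff.1 h)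
  -- a family indexed by a type in `Type`
  obtain ⟨J, _, hJ, R, hR1, hR2⟩ := delta_system (ι := I) (fun x => (p x.1).g.image Prod.fst) h4
  let T : Type := {s : Finset (A × Bool) // s ⊆ R ×ˢ Finset.univ}
  have hT : Finite T := by
    have : T = {s : Finset (A × Bool) // s ∈ (R ×ˢ (Finset.univ : Finset Bool)).powerset} := by
      simp only [T, Finset.mem_powerset]
    rw [this]
    infer_instance
  obtain ⟨c, hc⟩ := pigeonhole hJ (fun x => (⟨(p x.1).g ∩ (R ×ˢ Finset.univ),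
    Finset.inter_subset_right⟩ : T))
  have h5 : ∃ x ∈ {i | i ∈ J ∧ (⟨(p i.1).g ∩ (R ×ˢ Finset.univ), Finset.inter_subset_right⟩ : T) = c},
      ∃ y ∈ {i | i ∈ J ∧ (⟨(p i.1).g ∩ (R ×ˢ Finset.univ), Finset.inter_subset_right⟩ : T) = c},
        x ≠ y := by
    by_contra hcon
    push Not at hcon
    apply hc
    exact (Set.Subsingleton.countable fun x hx y hy => hcon x hx y hy)
  obtain ⟨x, ⟨hxJ, hxc⟩, y, ⟨hyJ, hyc⟩, hxy⟩ := h5
  have h6 : (p x.1).g ∩ (R ×ˢ Finset.univ) = (p y.1).g ∩ (R ×ˢ Finset.univ) :=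
    congrArg Subtype.val (hxc.trans hyc.symm)
  have key : ∀ a b b', (a, b) ∈ (p x.1).g → (a, b') ∈ (p y.1).g →
      (a, b) ∈ (p y.1).g ∧ (a, b') ∈ (p x.1).g := by
    intro a b b' ha hb
    have h7 : a ∈ R := hR2 x hxJ y hyJ hxy (Finset.mem_inter.2
      ⟨Finset.mem_image.2 ⟨_, ha, rfl⟩, Finset.mem_image.2 ⟨_, hb, rfl⟩⟩)
    constructor
    · have h8 : (a, b) ∈ (p x.1).g ∩ (R ×ˢ Finset.univ) :=
        Finset.mem_inter.2 ⟨ha, Finset.mem_product.2 ⟨h7, Finset.mem_univ _⟩⟩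
      rw [h6] at h8
      exact (Finset.mem_inter.1 h8).1
    · have h8 : (a, b') ∈ (p y.1).g ∩ (R ×ˢ Finset.univ) :=
        Finset.mem_inter.2 ⟨hb, Finset.mem_product.2 ⟨h7, Finset.mem_univ _⟩⟩
      rw [← h6] at h8
      exact (Finset.mem_inter.1 h8).1
  obtain ⟨r, hr1, hr2⟩ := Cn.union (p := p x.1) (q := p y.1)
    (fun a ha hb => (p x.1).fn a ha (key a _ _ ha hb).2)
    (fun a ha hb => (p x.1).fn a (key a _ _ ha hb).2 ha)
  apply em_ne_bot r
  rw [← le_bot_iff, ← h2 x.1 x.2 y.1 y.2 (fun h => hxy (Subtype.ext h))]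
  exact le_inf ((em_mono hr1).trans (hp _ x.2)) ((em_mono hr2).trans (hp _ y.2))

theorem iSup_em_le (b : CA A) : ⨆ p : {p : Cn A // em p ≤ b}, em p.1 = b := by
  refine le_antisymm (iSup_le fun p => p.2) (le_of_em fun p hp => ⟨p, le_rfl, ?_⟩)
  exact le_iSup (fun p : {p : Cn A // em p ≤ b} => em p.1) ⟨p, hp⟩

/-- Every nonzero element is the supremum of countably many conditions. -/
theorem exists_repr {b : CA A} (hb : b ≠ ⊥) : ∃ h : ℕ → Cn A, ⨆ n, em (h n) = b := by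
  obtain ⟨C, hC, h1⟩ := ccc_iSup ccc_cohen (fun p : {p : Cn A // em p ≤ b} => em p.1)
  rw [iSup_em_le] at h1
  have hne : C.Nonempty := by
    rw [nonempty_iff_ne_empty]
    rintro rfl
    apply hb
    rw [← h1]
    simp
  obtain ⟨f, rfl⟩ := hC.exists_eq_range hne
  refine ⟨fun n => (f n).1, ?_⟩
  rw [iSup_range] at h1
  exact h1

theorem mk_Cn_le {l : Cardinal.{0}} (hl : ℵ₀ ≤ l) (hA : #A ≤ l) : #(Cn A) ≤ l := by
  have h1 : #(Cn A) ≤ #(Finset (A × Bool)) :=
    mk_le_of_injective (f := fun p : Cn A => p.g) fun p q h => Cn.ext h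
  refine h1.trans ?_
  rcases finite_or_infinite (A × Bool) with h | h
  · exact (mk_le_aleph0 (α := Finset (A × Bool))).trans hl
  · rw [mk_finset_of_infinite, mk_prod]
    simp only [lift_id]
    refine (mul_le_mul' hA (le_trans ?_ hl)).trans (mul_eq_self hl).le
    exact mk_le_aleph0

theorem mk_CA_le {l : Cardinal.{0}} (hl : ℵ₀ ≤ l) (hA : #A ≤ l) (hll : l ^ ℵ₀ ≤ l) :
    #(CA A) ≤ l := by
  classical
  have h1 : ∀ b : CA A, ∃ o : Option (ℕ → Cn A), (o.elim ⊥ fun h => ⨆ n, em (h n)) = b := by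
    intro b
    by_cases hb : b = ⊥
    · exact ⟨none, hb.symm⟩
    · obtain ⟨h, hh⟩ := exists_repr hb
      exact ⟨some h, hh⟩
  choose o ho using h1
  have h2 : #(CA A) ≤ #(Option (ℕ → Cn A)) := by
    refine mk_le_of_injective (f := o) fun b c hbc => ?_
    rw [← ho b, hbc, ho c]
  refine h2.trans ?_
  rw [mk_option]
  have h3 : #(ℕ → Cn A) ≤ l := by
    rw [← power_def, mk_nat]
    exact (power_le_power_right (mk_Cn_le hl hA)).trans hll
  exact (add_le_add h3 (one_le_aleph0.trans hl)).trans (add_eq_self hl).le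

/-- A condition lies below a supremum of conditions with disjoint tails over a common root. -/
theorem em_le_iSup {G : Finset (A × Bool)} {s : Cn A} (hs : G ⊆ s.g) {d : ℕ → Cn A}
    (_hd : ∀ n, G ⊆ (d n).g)
    (hdis : ∀ m n, m < n → Disjoint (((d m).g : Set (A × Bool)) \ G) (((d n).g : Set _) \ G)) :
    em s ≤ ⨆ n, em (d n) := by
  classical
  refine le_of_em fun p hp => ?_
  obtain ⟨r, hrp, hrs⟩ := compat_of (p := p) (q := s) (by
    rw [inf_eq_left.2 hp]
    exact em_ne_bot p)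
  have hfin : {x : A × Bool | ∃ b, (x.1, b) ∈ r.g}.Finite := by
    have h1 : {x : A × Bool | ∃ b, (x.1, b) ∈ r.g} ⊆
        ((r.g.image Prod.fst ×ˢ (Finset.univ : Finset Bool) : Finset (A × Bool)) : Set _) := by
      rintro ⟨a, b⟩ ⟨b', hb'⟩
      rw [Finset.mem_coe, Finset.mem_product]
      exact ⟨Finset.mem_image.2 ⟨_, hb', rfl⟩, Finset.mem_univ _⟩
    exact (Finset.finite_toSet _).subset h1
  have h1 : ∃ n, ∀ x, x ∈ (d n).g → x ∉ G → ∀ b, (x.1, b) ∉ r.g := by
    by_contra hcon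
    push Not at hcon
    choose x hx1 hx2 b hb using hcon
    have hinj : Function.Injective x := by
      intro m n hmn
      by_contra hne
      rcases lt_or_gt_of_ne hne with h | h
      · have h3 : x m ∉ (((d n).g : Set (A × Bool)) \ G) :=
          Set.disjoint_left.1 (hdis m n h) ⟨hx1 m, hx2 m⟩
        rw [hmn] at h3
        exact h3 ⟨hx1 n, hx2 n⟩
      · have h3 : x n ∉ (((d m).g : Set (A × Bool)) \ G) :=
          Set.disjoint_left.1 (hdis n m h) ⟨hx1 n, hx2 n⟩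
        rw [← hmn] at h3
        exact h3 ⟨hx1 m, hx2 m⟩
    exact infinite_of_injective_forall_mem (s := {x : A × Bool | ∃ b, (x.1, b) ∈ r.g}) hinj
      (fun n => ⟨b n, hb n⟩) hfin
  obtain ⟨n, hn⟩ := h1
  have key : ∀ a b b', (a, b) ∈ r.g → (a, b') ∈ (d n).g → (a, b') ∈ r.g := by
    intro a b b' h2 h3
    by_cases h4 : (a, b') ∈ G
    · exact hrs (hs h4)
    · exact absurd h2 (hn _ h3 h4 b)
  obtain ⟨t, ht1, ht2⟩ := Cn.union (p := r) (q := d n)
    (fun a h2 h3 => r.fn a h2 (key a _ _ h2 h3))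
    (fun a h2 h3 => r.fn a (key a _ _ h2 h3) h2)
  exact ⟨t, ht1.trans hrp, le_iSup_of_le n (em_mono ht2)⟩

/-- one bit -/
def bit (a : A) (b : Bool) : Cn A :=
  ⟨{(a, b)}, fun c h1 h2 => by
    have h3 : (c, true) = (a, b) := Finset.mem_singleton.1 h1
    have h4 : (c, false) = (a, b) := Finset.mem_singleton.1 h2
    have h5 : (c, true) = (c, false) := h3.trans h4.symm
    simp at h5⟩

theorem em_bit_false_le {a : A} : em (bit a false) ≤ (em (bit a true))ᶜ := by
  rw [le_compl_iff_disjoint_right, disjoint_iff]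
  by_contra hcon
  obtain ⟨r, h1, h2⟩ := compat_of hcon
  exact r.fn a (h2 (Finset.mem_singleton_self _)) (h1 (Finset.mem_singleton_self _))

/-- Two different Cohen reals are different. -/
theorem exists_split {L : Type} {l l' : L} (hne : l ≠ l') {b : CA (L × ℕ)} (hb : b ≠ ⊥) :
    ∃ (n : ℕ) (p : Cn (L × ℕ)), em p ≤ b ∧ em p ≤ em (bit (l, n) true) ∧
      em p ≤ (em (bit (l', n) true))ᶜ := by
  classical
  obtain ⟨p, hp⟩ := exists_em hb
  have h1 : ∃ n : ℕ, ∀ x ∈ p.g, x.1.2 ≠ n := by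
    by_contra hcon
    push Not at hcon
    have h2 : (univ : Set ℕ) ⊆ ((p.g.image fun x => x.1.2 : Finset ℕ) : Set ℕ) := by
      intro n _
      obtain ⟨x, hx, hxn⟩ := hcon n
      exact Finset.mem_coe.2 (Finset.mem_image.2 ⟨x, hx, hxn⟩)
    exact infinite_univ ((Finset.finite_toSet _).subset h2)
  obtain ⟨n, hn⟩ := h1
  obtain ⟨r, hr1, hr2, hr3⟩ := Cn.union' (p := p) (q := bit (l, n) true)
    (fun a h2 h3 => by
      have h4 := Finset.mem_singleton.1 h3
      simp at h4)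
    (fun a h2 h3 => by
      have h4 := Finset.mem_singleton.1 h3
      have h5 : a = (l, n) := congrArg Prod.fst h4
      exact hn _ h2 (by rw [h5]))
  obtain ⟨t, ht1, ht2⟩ := Cn.union (p := r) (q := bit (l', n) false)
    (fun a h2 h3 => by
      have h4 : a = (l', n) := congrArg Prod.fst (Finset.mem_singleton.1 h3)
      rcases hr3 _ h2 with h5 | h5
      · exact hn _ h5 (by rw [h4])
      · have h6 : a = (l, n) := congrArg Prod.fst (Finset.mem_singleton.1 h5)
        rw [h4] at h6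
        exact hne (congrArg Prod.fst h6).symm)
    (fun a h2 h3 => by
      have h4 := Finset.mem_singleton.1 h3
      simp at h4)
  refine ⟨n, t, (em_mono (ht1.trans hr1)).trans hp, em_mono (ht1.trans hr2),
    (em_mono ht2).trans em_bit_false_le⟩

end Pool.Agent.Lib.P254f8a
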