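import Pool.Agent.Lib.P254f8a.Topo
import Pool.Agent.Lib.P254f8a.Cohen
import Pool.Agent.Lib.Pe09daa.Gph

/-!
# Boolean values of the notions, and names
-/

set_option autoImplicit false

open Set

namespace Pool.Agent.Lib.P254f8a

open Pool.Agent.Lib.BVM Pool.Agent.Lib.BVM.bSet Pool.Agent.Lib.Pe09daa.Str
  Pool.Agent.Lib.Pe09daa.Neg Pool.Agent.Lib.P7aa9af

variable {B : Type} [CompleteBooleanAlgebra B]

theorem BV.congr {P Q : Ultra B → Prop} (h : ∀ U, P U ↔ Q U) (hQ : BV Q) : BV P := by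
  obtain ⟨b, hb⟩ := hQ
  exact ⟨b, fun U => (h U).trans (hb U)⟩

theorem bvDLO (w q' : bSet B) : BV (fun U => IsDLO (E U) (q U w) (q U q')) := by
  refine BV.congr (Q := fun U => (∀ x, E U x (q U w) → ¬ App (E U) (q U q') x x) ∧
    (∀ x y z, E U x (q U w) → E U y (q U w) → E U z (q U w) → App (E U) (q U q') x y →
      App (E U) (q U q') y z → App (E U) (q U q') x z) ∧
    (∀ x y, E U x (q U w) → E U y (q U w) → x = y ∨ App (E U) (q U q') x y ∨
      App (E U) (q U q') y x) ∧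
    (∀ x y, E U x (q U w) → E U y (q U w) → App (E U) (q U q') x y →
      ∃ z, E U z (q U w) ∧ App (E U) (q U q') x z ∧ App (E U) (q U q') z y) ∧
    (∀ x, E U x (q U w) → ∃ y, E U y (q U w) ∧ App (E U) (q U q') y x) ∧
    (∀ x, E U x (q U w) → ∃ y, E U y (q U w) ∧ App (E U) (q U q') x y))
    (fun U => ⟨fun h => ⟨h.1, h.2, h.3, h.4, h.5, h.6⟩,
      fun ⟨h1, h2, h3, h4, h5, h6⟩ => ⟨h1, h2, h3, h4, h5, h6⟩⟩) ?_
  refine (BV.all fun x => (BV.mem _ _).imp (BV.app _ _ _).not).and ?_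
  refine (BV.all fun x => BV.all fun y => BV.all fun z => (BV.mem _ _).imp ((BV.mem _ _).imp
    ((BV.mem _ _).imp ((BV.app _ _ _).imp ((BV.app _ _ _).imp (BV.app _ _ _)))))).and ?_
  refine (BV.all fun x => BV.all fun y => (BV.mem _ _).imp ((BV.mem _ _).imp
    ((BV.eq _ _).or ((BV.app _ _ _).or (BV.app _ _ _))))).and ?_
  refine (BV.all fun x => BV.all fun y => (BV.mem _ _).imp ((BV.mem _ _).imp
    ((BV.app _ _ _).imp (BV.ex fun z => (BV.mem _ _).and ((BV.app _ _ _).and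
      (BV.app _ _ _)))))).and ?_
  exact (BV.all fun x => (BV.mem _ _).imp (BV.ex fun y => (BV.mem _ _).and (BV.app _ _ _))).and
    (BV.all fun x => (BV.mem _ _).imp (BV.ex fun y => (BV.mem _ _).and (BV.app _ _ _)))

theorem bvCut (w q' c : bSet B) : BV (fun U => IsCut (E U) (q U w) (q U q') (q U c)) := by
  refine BV.congr (Q := fun U => (∀ x, E U x (q U c) → E U x (q U w)) ∧
    (∃ x, E U x (q U w) ∧ E U x (q U c)) ∧ (∃ x, E U x (q U w) ∧ ¬ E U x (q U c)) ∧
    (∀ x y, E U x (q U w) → E U y (q U w) → App (E U) (q U q') x y → E U y (q U c) →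
      E U x (q U c)) ∧
    (∀ x, E U x (q U w) → E U x (q U c) → ∃ y, E U y (q U w) ∧ E U y (q U c) ∧
      App (E U) (q U q') x y))
    (fun U => ⟨fun h => ⟨h.1, h.2, h.3, h.4, h.5⟩,
      fun ⟨h1, h2, h3, h4, h5⟩ => ⟨h1, h2, h3, h4, h5⟩⟩) ?_
  refine (BV.all fun x => (BV.mem _ _).imp (BV.mem _ _)).and ?_
  refine (BV.ex fun x => (BV.mem _ _).and (BV.mem _ _)).and ?_
  refine (BV.ex fun x => (BV.mem _ _).and (BV.mem _ _).not).and ?_
  refine (BV.all fun x => BV.all fun y => (BV.mem _ _).imp ((BV.mem _ _).imp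
    ((BV.app _ _ _).imp ((BV.mem _ _).imp (BV.mem _ _))))).and ?_
  exact BV.all fun x => (BV.mem _ _).imp ((BV.mem _ _).imp (BV.ex fun y => (BV.mem _ _).and
    ((BV.mem _ _).and (BV.app _ _ _))))

theorem bvInInt (w q' a b c : bSet B) :
    BV (fun U => InInt (E U) (q U w) (q U q') (q U a) (q U b) (q U c)) :=
  (BV.mem _ _).and (BV.ex fun _ => (BV.mem _ _).and ((BV.mem _ _).not.and (BV.app _ _ _)))

theorem bvBase (X S : bSet B) : BV (fun U => IsBase (E U) (q U X) (q U S)) := by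
  refine BV.congr (Q := fun U => (∀ V, E U V (q U S) → Subs (E U) V (q U X)) ∧
    (∀ x, E U x (q U X) → ∃ V, E U V (q U S) ∧ E U x V) ∧
    (∀ V W x, E U V (q U S) → E U W (q U S) → E U x V → E U x W →
      ∃ Z, E U Z (q U S) ∧ E U x Z ∧ Subs (E U) Z V ∧ Subs (E U) Z W))
    (fun U => ⟨fun h => ⟨h.1, h.2, h.3⟩, fun ⟨h1, h2, h3⟩ => ⟨h1, h2, h3⟩⟩) ?_
  refine (BV.all fun V => (BV.mem _ _).imp (bvSubs _ _)).and ?_
  refine (BV.all fun x => (BV.mem _ _).imp (BV.ex fun V => (BV.mem _ _).and (BV.mem _ _))).and ?_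
  exact BV.all fun V => BV.all fun W => BV.all fun x => (BV.mem _ _).imp ((BV.mem _ _).imp
    ((BV.mem _ _).imp ((BV.mem _ _).imp (BV.ex fun Z => (BV.mem _ _).and ((BV.mem _ _).and
      ((bvSubs _ _).and (bvSubs _ _)))))))

theorem bvCont (w q' X S : bSet B) {R : ∀ U : Ultra B, Mod U → Mod U → Prop}
    (hR : ∀ x c, BV (fun U => R U (q U x) (q U c))) :
    BV (fun U => Cont (E U) (q U w) (q U q') (q U X) (q U S) (R U)) :=
  BV.all fun x => BV.all fun c => (BV.mem _ _).imp ((hR x c).imp (BV.all fun a => BV.all fun b =>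
    (BV.mem _ _).imp ((BV.mem _ _).imp ((bvInInt w q' a b c).imp (BV.ex fun V => (BV.mem _ _).and
      ((BV.mem _ _).and (BV.all fun x' => BV.all fun c' => (BV.mem _ _).imp ((hR x' c').imp
        (bvInInt w q' a b c')))))))))

theorem bvApp2 (f x y c : bSet B) :
    BV (fun U => App2 (E U) (q U f) (q U x) (q U y) (q U c)) :=
  BV.ex fun p => (BV.isPair x y p).and (BV.app f p c)

theorem bvFun2 (w q' X f : bSet B) :
    BV (fun U => IsFun2 (E U) (q U w) (q U q') (q U X) (q U f)) :=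
  (BV.all fun t => (BV.mem _ _).imp (BV.ex fun x => BV.ex fun y => BV.ex fun p => BV.ex fun c =>
    (BV.mem _ _).and ((BV.mem _ _).and ((BV.isPair x y p).and ((BV.isPair p c t).and
      (bvCut w q' c)))))).and
  (BV.all fun x => BV.all fun y => (BV.mem _ _).imp ((BV.mem _ _).imp
    (BV.exUnique fun c => bvApp2 f x y c)))

theorem bvSepCont (w q' X S f : bSet B) :
    BV (fun U => IsSepCont (E U) (q U w) (q U q') (q U X) (q U S) (q U f)) := by
  refine BV.congr (Q := fun U => IsFun2 (E U) (q U w) (q U q') (q U X) (q U f) ∧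
    (∀ y, E U y (q U X) → Cont (E U) (q U w) (q U q') (q U X) (q U S)
      (fun x c => App2 (E U) (q U f) x y c)) ∧
    (∀ x, E U x (q U X) → Cont (E U) (q U w) (q U q') (q U X) (q U S)
      (fun y c => App2 (E U) (q U f) x y c)))
    (fun U => ⟨fun h => ⟨h.1, h.2, h.3⟩, fun ⟨h1, h2, h3⟩ => ⟨h1, h2, h3⟩⟩) ?_
  refine (bvFun2 w q' X f).and ((BV.all fun y => (BV.mem _ _).imp ?_).and
    (BV.all fun x => (BV.mem _ _).imp ?_))
  · exact bvCont w q' X S (R := fun U x c => App2 (E U) (q U f) x (q U y) c)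
      (fun x c => bvApp2 f x y c)
  · exact bvCont w q' X S (R := fun U y c => App2 (E U) (q U f) (q U x) y c)
      (fun y c => bvApp2 f x y c)

theorem bvInBox (w q' n x y a b g : bSet B) :
    BV (fun U => InBox (E U) (q U w) (q U q') (q U n) (q U x) (q U y) (q U a) (q U b) (q U g)) :=
  BV.all fun i => BV.all fun xi => BV.all fun yi => BV.all fun ai => BV.all fun bi =>
    BV.all fun c => (BV.mem _ _).imp ((BV.app _ _ _).imp ((BV.app _ _ _).imp ((BV.app _ _ _).imp
      ((BV.app _ _ _).imp ((bvApp2 g xi yi c).imp (bvInInt w q' ai bi c))))))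

/-- the box isolates `f` -/
def Iso {M : Type*} (E : M → M → Prop) (w q X D f n x y a b : M) : Prop :=
  E n w ∧ IsFun E x n X ∧ IsFun E y n X ∧ IsFun E a n w ∧
    IsFun E b n w ∧ InBox E w q n x y a b f ∧ ∀ g, E g D → InBox E w q n x y a b g → g = f

theorem bvIso (w q' X D f n x y a b : bSet B) :
    BV (fun U => Iso (E U) (q U w) (q U q') (q U X) (q U D) (q U f) (q U n) (q U x) (q U y)
      (q U a) (q U b)) :=
  (BV.mem _ _).and ((BV.isFun _ _ _).and ((BV.isFun _ _ _).and ((BV.isFun _ _ _).and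
    ((BV.isFun _ _ _).and ((bvInBox w q' n x y a b f).and (BV.all fun g => (BV.mem _ _).imp
      ((bvInBox w q' n x y a b g).imp (BV.eq _ _))))))))

theorem bvDiscrete (w q' X D : bSet B) :
    BV (fun U => IsDiscrete (E U) (q U w) (q U q') (q U X) (q U D)) :=
  BV.all fun f => (BV.mem _ _).imp (BV.ex fun n => BV.ex fun x => BV.ex fun y => BV.ex fun a =>
    BV.ex fun b => bvIso w q' X D f n x y a b)

/-- Choice of names. -/
theorem max_name {P : ∀ U : Ultra B, Mod U → Prop} (h : ∀ x, BV (fun U => P U (q U x))) :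
    ∃ x : bSet B, ∀ U, (∃ m, P U m) → P U (q U x) := by
  obtain ⟨y, hy⟩ := exists_max (fun y => bv (fun U => P U (q U y)))
    (fun x y => Ultra.le_of_forall fun U hU => by
      obtain ⟨h1, h2⟩ := Ultra.inf_iff.1 hU
      rw [← (h y).iff U, ← q_eq.2 h1]
      exact ((h x).iff U).2 h2)
  refine ⟨y, fun U hex => ?_⟩
  rw [los_ex (P := P) (fun x U => (h x).iff U)] at hex
  exact ((h y).iff U).2 (Ultra.mono hex hy)

end Pool.Agent.Lib.P254f8a
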