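import Mathlib

/-!
# A combinatorial lemma on systems of finite sets

Given more than `lam` functions `h i : Γ → Finset A`, `#Γ ≤ k`, `2 ^ k ≤ lam`, there are a function
`G : Γ → Finset A`, more than `lam` indices `i` with `G ≤ h i`, and a sequence `d n` of indices
such that the sets `h (d n) γ \ G γ` are disjoint for different `n`.
-/

set_option autoImplicit false

open Set Cardinal

namespace Pool.Agent.Lib.P254f8a

section

variable {Γ A I T : Type} (h : I → Γ → Finset A) (lab : I → T)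

/-- the tail -/
def tail (g : Γ → Finset A) (d : I) : Set A := ⋃ γ, ((h d γ : Set A) \ (g γ : Set A))

/-- the indices above `g` with label `t` -/
def Ab (g : Γ → Finset A) (t : T) (d : I) : Prop := lab d = t ∧ ∀ γ, g γ ⊆ h d γ

/-- There is a sequence of indices above `g` with disjoint tails. -/
def Rich (g : Γ → Finset A) (t : T) : Prop :=
  ∃ d : ℕ → I, (∀ n, Ab h lab g t (d n)) ∧ ∀ m n, m < n → Disjoint (tail h g (d m)) (tail h g (d n))

variable {h lab}

theorem mk_tail_le {k : Cardinal} (hk : ℵ₀ ≤ k) (hΓ : #Γ ≤ k) (g : Γ → Finset A) (d : I) :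
    #(tail h g d) ≤ k := by
  refine (mk_iUnion_le _).trans ?_
  refine (mul_le_mul' hΓ ?_).trans (mul_eq_self hk).le
  refine ciSup_le' fun γ => ?_
  exact (((h d γ).finite_toSet.subset sdiff_subset).lt_aleph0).le.trans hk

theorem exists_block {k : Cardinal} (hk : ℵ₀ ≤ k) (hΓ : #Γ ≤ k) {g : Γ → Finset A} {t : T}
    (hr : ¬ Rich h lab g t) : ∃ W : Set A, #W ≤ k ∧ ∀ d, Ab h lab g t d → ¬ Disjoint (tail h g d) W := by
  by_contra hcon
  push Not at hcon
  apply hr
  obtain ⟨d, hd1, hd2⟩ := exists_seq_of_forall_finset_exists (Ab h lab g t)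
    (fun x y => Disjoint (tail h g x) (tail h g y)) (by
      intro s _
      obtain ⟨y, hy1, hy2⟩ := hcon (⋃ x ∈ s, tail h g x) (by
        have : (⋃ x ∈ s, tail h g x) = ⋃ x : s, tail h g x.1 := by
          ext; simp
        rw [this]
        refine (mk_iUnion_le _).trans ?_
        refine (mul_le_mul' ((mk_le_aleph0 (α := s)).trans hk) ?_).trans (mul_eq_self hk).le
        exact ciSup_le' fun x => mk_tail_le hk hΓ g x.1)
      refine ⟨y, hy1, fun x hx => ?_⟩
      exact (hy2.mono_right (subset_biUnion_of_mem (u := fun x => tail h g x) hx)).symm)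
  exact ⟨d, hd1, hd2⟩

end

/-- A small set closed under an operation with many arguments. -/
theorem exists_closed {Γ A T : Type} {k : Cardinal.{0}} (hk : ℵ₀ ≤ k) (hΓ : #Γ ≤ k)
    (hT : #T ≤ 2 ^ k) (W : (Γ → Finset A) → T → Set A) (hW : ∀ g t, #(W g t) ≤ k) :
    ∃ N : Set A, #N ≤ 2 ^ k ∧ ∀ g t, (∀ γ, (g γ : Set A) ⊆ N) → W g t ⊆ N := by
  classical
  set K : Type := k.out with hK
  have hKk : #K = k := mk_out k
  have henum : ∀ g t, ∃ f : K → Option A, ∀ a ∈ W g t, ∃ x, f x = some a := by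
    intro g t
    have h1 : #(W g t) ≤ #K := by rw [hKk]; exact hW g t
    obtain ⟨e⟩ := h1
    refine ⟨fun x => if hx : ∃ a : W g t, e a = x then some hx.choose.1 else none,
      fun a ha => ⟨e ⟨a, ha⟩, ?_⟩⟩
    have hx : ∃ a' : W g t, e a' = e ⟨a, ha⟩ := ⟨_, rfl⟩
    change (if hx : ∃ a' : W g t, e a' = e ⟨a, ha⟩ then some hx.choose.1 else none) = some a
    rw [dif_pos hx]
    have h2 : hx.choose = ⟨a, ha⟩ := e.injective hx.choose_spec
    rw [h2]
  choose f hf using henum
  let L : Type := Set (Γ × ℕ) × T × K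
  let β : L → Type := fun a => {x : Γ × ℕ // x ∈ a.1}
  let gof : ∀ S : Set (Γ × ℕ), ({x : Γ × ℕ // x ∈ S} → Option A) → Γ → Finset A :=
    fun S ch γ => if hfin : {a | ∃ n, ∃ hn : (γ, n) ∈ S, ch ⟨(γ, n), hn⟩ = some a}.Finite then
      hfin.toFinset else ∅
  let ev : WType β → Option A := WType.elim (Option A)
    (fun p => f (gof p.1.1 p.2) p.1.2.1 p.1.2.2)
  have hev : ∀ (a : L) (ch : β a → WType β), ev (WType.mk a ch) =
    f (gof a.1 (fun x => ev (ch x))) a.2.1 a.2.2 := fun a ch => rfl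
  refine ⟨{a | ∃ τ, ev τ = some a}, ?_, ?_⟩
  · have h1 : #(WType β) ≤ 2 ^ k := by
      refine WType.cardinalMk_le_of_le ?_
      have h3 : #(Γ × ℕ) ≤ k := by
        rw [mk_prod, lift_id, lift_id, mk_nat]
        exact (mul_le_mul' hΓ hk).trans (mul_eq_self hk).le
      have h2k : ℵ₀ ≤ (2 : Cardinal) ^ k := hk.trans (cantor k).le
      have h4 : #L ≤ 2 ^ k := by
        have h5 : #L = 2 ^ #(Γ × ℕ) * (#T * #K) := by
          change #(Set (Γ × ℕ) × T × K) = _
          rw [mk_prod, mk_prod, mk_set]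
          simp only [lift_id]
        rw [h5, hKk]
        have h6 : (2 : Cardinal) ^ #(Γ × ℕ) ≤ 2 ^ k := power_le_power_left two_ne_zero h3
        refine (mul_le_mul' h6 (mul_le_mul' hT (cantor k).le)).trans ?_
        rw [mul_eq_self h2k, mul_eq_self h2k]
      calc Cardinal.sum (fun a : L => (2 ^ k : Cardinal) ^ #(β a))
          ≤ Cardinal.sum (fun _ : L => (2 ^ k : Cardinal)) := by
            refine sum_le_sum _ _ fun a => ?_
            have h5 : #(β a) ≤ k := (mk_subtype_le _).trans h3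
            calc (2 ^ k : Cardinal) ^ #(β a) ≤ (2 ^ k) ^ k :=
                  power_le_power_left (power_ne_zero _ two_ne_zero) h5
              _ = 2 ^ k := by rw [← power_mul, mul_eq_self hk]
        _ = #L * 2 ^ k := by rw [sum_const, lift_id, lift_id]
        _ ≤ 2 ^ k := (mul_le_mul' h4 le_rfl).trans (mul_eq_self h2k).le
    refine le_trans ?_ h1
    have h2 : ∀ a : {a | ∃ τ, ev τ = some a}, ∃ τ, ev τ = some a.1 := fun a => a.2
    choose τ hτ using h2
    refine mk_le_of_injective (f := τ) fun a b hab => ?_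
    have h3 := hτ a
    rw [hab, hτ b] at h3
    exact Subtype.ext (Option.some_injective _ h3).symm
  · intro g t hg a ha
    obtain ⟨x, hx⟩ := hf g t a ha
    have h1 : ∀ γ (a : A), a ∈ g γ → ∃ τ, ev τ = some a := fun γ a ha => hg γ ha
    choose tr htr using h1
    let S : Set (Γ × ℕ) := {p | p.2 < (g p.1).toList.length}
    let a0 : L := (S, t, x)
    have hmem : ∀ γ n (hn : n < (g γ).toList.length), (g γ).toList[n]'hn ∈ g γ := by
      intro γ n hn
      rw [← Finset.mem_toList]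
      exact List.getElem_mem _
    let ch : β a0 → WType β := fun p =>
      tr p.1.1 ((g p.1.1).toList[p.1.2]'p.2) (hmem p.1.1 p.1.2 p.2)
    refine ⟨WType.mk a0 ch, ?_⟩
    rw [hev]
    have hgof : gof a0.1 (fun x => ev (ch x)) = g := by
      funext γ
      have h2 : {a | ∃ n, ∃ hn : (γ, n) ∈ S, ev (ch ⟨(γ, n), hn⟩) = some a} = (g γ : Set A) := by
        ext b
        constructor
        · rintro ⟨n, hn, hb⟩
          have h3 : (g γ).toList[n]'hn ∈ g γ := hmem γ n hn
          have h5 : ev (ch ⟨(γ, n), hn⟩) = some ((g γ).toList[n]'hn) := htr γ _ h3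
          rw [h5] at hb
          rw [← Option.some_injective _ hb]
          exact h3
        · intro hb
          have hb' : b ∈ (g γ).toList := Finset.mem_toList.2 hb
          obtain ⟨n, hn, hnb⟩ := List.getElem_of_mem hb'
          refine ⟨n, hn, ?_⟩
          have h3 : (g γ).toList[n]'hn ∈ g γ := hmem γ n hn
          have h5 : ev (ch ⟨(γ, n), hn⟩) = some ((g γ).toList[n]'hn) := htr γ _ h3
          rw [h5, hnb]
      change (if hfin : {a | ∃ n, ∃ hn : (γ, n) ∈ S, ev (ch ⟨(γ, n), hn⟩) = some a}.Finite then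
        hfin.toFinset else ∅) = g γ
      rw [dif_pos (by rw [h2]; exact (g γ).finite_toSet)]
      ext b
      rw [Set.Finite.mem_toFinset, h2]
      rfl
    rw [hgof]
    exact hx

/-- The main combinatorial lemma. -/
theorem exists_system {Γ A I T : Type} {k l : Cardinal.{0}} (hk : ℵ₀ ≤ k) (hΓ : #Γ ≤ k)
    (hT : #T ≤ 2 ^ k) (hkl : 2 ^ k ≤ l) (h : I → Γ → Finset A) (lab : I → T) {I' : Set I}
    (hI : l < #I') :
    ∃ (G : Γ → Finset A) (t : T) (J : Set I) (d : ℕ → I), J ⊆ I' ∧ l < #J ∧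
      (∀ i ∈ J, lab i = t ∧ ∀ γ, G γ ⊆ h i γ) ∧
      (∀ n, d n ∈ I' ∧ lab (d n) = t ∧ ∀ γ, G γ ⊆ h (d n) γ) ∧
      ∀ m n, m < n → ∀ γ, Disjoint ((h (d m) γ : Set A) \ G γ) ((h (d n) γ : Set A) \ G γ) := by
  classical
  set h' : I' → Γ → Finset A := fun i => h i.1 with hh'
  set lab' : I' → T := fun i => lab i.1 with hlab'
  have hblock : ∀ g t, ∃ W : Set A, #W ≤ k ∧
      (¬ Rich h' lab' g t → ∀ d, Ab h' lab' g t d → ¬ Disjoint (tail h' g d) W) := by
    intro g t
    by_cases hr : Rich h' lab' g t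
    · exact ⟨∅, by simp, fun h => absurd hr h⟩
    · obtain ⟨W, h1, h2⟩ := exists_block hk hΓ hr
      exact ⟨W, h1, fun _ => h2⟩
  choose W hW1 hW2 using hblock
  obtain ⟨N, hN1, hN2⟩ := exists_closed hk hΓ hT W hW1
  set G : I' → Γ → Finset A := fun i γ => (h' i γ).filter (· ∈ N) with hG
  have hrich : ∀ i, Rich h' lab' (G i) (lab' i) := by
    intro i
    by_contra hcon
    have h1 := hW2 _ _ hcon i ⟨rfl, fun γ => Finset.filter_subset _ _⟩
    apply h1
    rw [Set.disjoint_left]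
    intro a ha ha'
    have h2 : a ∈ N := hN2 (G i) (lab' i) (fun γ b hb => (Finset.mem_filter.1 hb).2) ha'
    obtain ⟨γ, hγ1, hγ2⟩ := mem_iUnion.1 ha
    exact hγ2 (Finset.mem_filter.2 ⟨hγ1, h2⟩)
  have h2k : ℵ₀ ≤ (2 : Cardinal) ^ k := hk.trans (cantor k).le
  set V : Type := (Γ → Finset N) × T with hV
  have hVc : #V ≤ l := by
    refine le_trans ?_ hkl
    have h1 : #(Finset N) ≤ 2 ^ k := by
      rcases finite_or_infinite N with hfin | hinf
      · exact (mk_le_aleph0 (α := Finset N)).trans h2k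
      · rw [mk_finset_of_infinite]; exact hN1
    have h3 : #V = #(Finset N) ^ #Γ * #T := by
      change #((Γ → Finset N) × T) = _
      rw [mk_prod, ← power_def]
      simp only [lift_id]
    rw [h3]
    refine (mul_le_mul' ?_ hT).trans (mul_eq_self h2k).le
    calc #(Finset N) ^ #Γ ≤ (2 ^ k) ^ #Γ := power_le_power_right h1
      _ ≤ (2 ^ k) ^ k := power_le_power_left (power_ne_zero _ two_ne_zero) hΓ
      _ = 2 ^ k := by rw [← power_mul, mul_eq_self hk]
  set φ : I' → V := fun i => (fun γ => (h' i γ).subtype (· ∈ N), lab' i) with hφ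
  have hfib : ∃ v : V, l < #(φ ⁻¹' {v}) := by
    by_contra hcon
    push Not at hcon
    have h1 : #I' ≤ l := by
      have h3 : #I' = #(⋃ v : V, φ ⁻¹' {v}) := by
        rw [← mk_univ]
        congr 1
        have : (univ : Set I') = ⋃ v : V, φ ⁻¹' {v} := by
          ext i; simp
        rw [this]
      rw [h3]
      refine (mk_iUnion_le _).trans ?_
      refine (mul_le_mul' hVc (ciSup_le' hcon)).trans (mul_eq_self (h2k.trans hkl)).le
    exact absurd hI (not_lt.2 h1)
  obtain ⟨v, hv⟩ := hfib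
  have hne : (φ ⁻¹' {v}).Nonempty := by
    rw [nonempty_iff_ne_empty]
    intro h0
    rw [h0] at hv
    simp at hv
  obtain ⟨i0, hi0⟩ := hne
  have hGeq : ∀ i ∈ φ ⁻¹' {v}, G i = G i0 ∧ lab' i = lab' i0 := by
    intro i hi
    have h1 : φ i = φ i0 := (mem_preimage.1 hi).trans (mem_preimage.1 hi0).symm
    refine ⟨?_, congrArg Prod.snd h1⟩
    funext γ
    have h3 : (h' i γ).subtype (· ∈ N) = (h' i0 γ).subtype (· ∈ N) :=
      congrFun (congrArg Prod.fst h1) γ
    ext a
    simp only [hG, Finset.mem_filter]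
    constructor
    · rintro ⟨h4, h5⟩
      have h6 : (⟨a, h5⟩ : N) ∈ (h' i γ).subtype (· ∈ N) := Finset.mem_subtype.2 h4
      rw [h3] at h6
      exact ⟨Finset.mem_subtype.1 h6, h5⟩
    · rintro ⟨h4, h5⟩
      have h6 : (⟨a, h5⟩ : N) ∈ (h' i0 γ).subtype (· ∈ N) := Finset.mem_subtype.2 h4
      rw [← h3] at h6
      exact ⟨Finset.mem_subtype.1 h6, h5⟩
  obtain ⟨d, hd1, hd2⟩ := hrich i0
  refine ⟨G i0, lab' i0, Subtype.val '' (φ ⁻¹' {v}), fun n => (d n).1, ?_, ?_, ?_, ?_, ?_⟩
  · rintro _ ⟨i, _, rfl⟩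
    exact i.2
  · rw [mk_image_eq Subtype.val_injective]
    exact hv
  · rintro _ ⟨i, hi, rfl⟩
    obtain ⟨h1, h3⟩ := hGeq i hi
    refine ⟨h3, fun γ => ?_⟩
    rw [← h1]
    exact Finset.filter_subset _ _
  · intro n
    exact ⟨(d n).2, (hd1 n).1, (hd1 n).2⟩
  · intro m n hmn γ
    exact (hd2 m n hmn).mono (subset_iUnion (fun γ => ((h' (d m) γ : Set A) \ (G i0 γ : Set A))) γ)
      (subset_iUnion (fun γ => ((h' (d n) γ : Set A) \ (G i0 γ : Set A))) γ)

end Pool.Agent.Lib.P254f8a
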