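import Pool.Agent.Lib.Pe09daa.StE
import Pool.Agent.Lib.P7aa9af.Defs

/-!
# Discrete subspaces of spaces of separately continuous functions, inside a structure `(M, E)`

Real numbers are Dedekind cuts of a dense linear order without endpoints `q` on the set `w` of
natural numbers (`IsDLO`, `IsCut`); `InInt a b c` says that the cut `c` lies in the open interval
between the elements `a`, `b` of `w`.
-/

set_option autoImplicit false

namespace Pool.Agent.Lib.P254f8a

open Pool.Agent.Lib.BVM Pool.Agent.Lib.Pe09daa.Str Pool.Agent.Lib.P7aa9af

universe u

variable {M : Type u} (E : M → M → Prop)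

/-- The set `S` is a base of a topology on the set `X`. -/
structure IsBase (X S : M) : Prop where
  sub : ∀ V, E V S → Subs E V X
  cover : ∀ x, E x X → ∃ V, E V S ∧ E x V
  inter : ∀ V W x, E V S → E W S → E x V → E x W → ∃ Z, E Z S ∧ E x Z ∧ Subs E Z V ∧ Subs E Z W

/-- The real valued partial function `R` (a relation between points and cuts) on the space with
base `S` is continuous at the points of its domain in `X`, as a function on `X`: if the value
`c` at `x` lies in an open interval, then all values on some basic neighbourhood of `x` lie in
this interval. -/
def Cont (w q X S : M) (R : M → M → Prop) : Prop :=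
  ∀ x c, E x X → R x c → ∀ a b, E a w → E b w → InInt E w q a b c →
    ∃ V, E V S ∧ E x V ∧ ∀ x' c', E x' V → R x' c' → InInt E w q a b c'

/-- `S` is a base of a Tychonoff topology on `X`: a `T1` topology such that for every basic
neighbourhood `V` of a point `x` there is a continuous real valued function `f` on `X` which is
constant on the complement of `V`, with another value at `x`. -/
structure IsTychonoff (w q X S : M) : Prop where
  base : IsBase E X S
  t1 : ∀ x y, E x X → E y X → x ≠ y → ∃ V, E V S ∧ E x V ∧ ¬ E y V
  reg : ∀ V x, E V S → E x V → ∃ f, IsFunOn E f X ∧ (∀ y c, App E f y c → IsCut E w q c) ∧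
    Cont E w q X S (App E f) ∧ ∃ c c', c ≠ c' ∧ App E f x c ∧ ∀ y, E y X → ¬ E y V → App E f y c'

/-- `f((x, y)) = c`. -/
def App2 (f x y c : M) : Prop := ∃ p, IsPair E x y p ∧ App E f p c

/-- `f` is a real valued function on the square of `X`. -/
def IsFun2 (w q X f : M) : Prop :=
  (∀ t, E t f → ∃ x y p c, E x X ∧ E y X ∧ IsPair E x y p ∧ IsPair E p c t ∧ IsCut E w q c) ∧
  ∀ x y, E x X → E y X → ∃! c, App2 E f x y c

/-- `f` is a separately continuous real valued function on the square of the space `X` with the
base `S`. -/
structure IsSepCont (w q X S f : M) : Prop where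
  fun2 : IsFun2 E w q X f
  left : ∀ y, E y X → Cont E w q X S (fun x c => App2 E f x y c)
  right : ∀ x, E x X → Cont E w q X S (fun y c => App2 E f x y c)

/-- The function `g` of two variables lies in the basic open set given by the natural number `n`
and the functions `x`, `y`, `a`, `b` with domain `n`: for all `i < n` the value of `g` at the point
`(x i, y i)` lies in the open interval between `a i` and `b i`. -/
def InBox (w q n x y a b g : M) : Prop :=
  ∀ i xi yi ai bi c, E i n → App E x i xi → App E y i yi → App E a i ai → App E b i bi →
    App2 E g xi yi c → InInt E w q ai bi c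

/-- The set `D` of real valued functions on the square of `X` is a discrete subspace in the topology
of pointwise convergence. -/
def IsDiscrete (w q X D : M) : Prop :=
  ∀ f, E f D → ∃ n x y a b, E n w ∧ IsFun E x n X ∧ IsFun E y n X ∧ IsFun E a n w ∧
    IsFun E b n w ∧ InBox E w q n x y a b f ∧ ∀ g, E g D → InBox E w q n x y a b g → g = f

/-- The statement Q1, where an infinite cardinal is given by an infinite set `K`: for every
infinite set `K` there is a Tychonoff space `X` with a base `S` of cardinality at most the
cardinality of `K`, and a discrete subspace `D` of the space of separately continuous real valued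
functions on the square of `X`, with the topology of pointwise convergence, such that `D` has the
cardinality of the power set of `K`. -/
def Q1 : Prop :=
  ∀ K, IsInf E K → ∃ w q, IsOmega E w ∧ IsDLO E w q ∧
    ∃ X S, IsTychonoff E w q X S ∧ CardLe E S K ∧
      ∃ D, (∀ f, E f D → IsSepCont E w q X S f) ∧ IsDiscrete E w q X D ∧
        ∀ P, IsPow E K P → ∃ h, IsBijection E h P D

end Pool.Agent.Lib.P254f8a
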