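import Pool.Agent.Lib.P254f8a.Main

/-!
# A model of ZFC in which Q1 fails
-/

set_option autoImplicit false

open Set Cardinal

namespace Pool.Agent.Lib.P254f8a

open Pool.Agent.Lib.BVM Pool.Agent.Lib.BVM.bSet Pool.Agent.Lib.Pe09daa.Str
  Pool.Agent.Lib.Pe09daa.Neg Pool.Agent.Lib.P7aa9af

/-- the number of Cohen reals -/
noncomputable def lam : Cardinal.{0} := ℶ_ (Ordinal.omega 1)

theorem isSuccLimit_omega_one : Order.IsSuccLimit (Ordinal.omega 1) :=
  Cardinal.isSuccLimit_omega 1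

theorem lam_strong : IsStrongLimit lam := isStrongLimit_beth.2 isSuccLimit_omega_one.isSuccPrelimit

theorem aleph0_le_lam : ℵ₀ ≤ lam := lam_strong.aleph0_le

theorem cof_lam : lam.ord.cof = ℵ_ 1 := by
  have h1 : Order.IsNormal (fun o : Ordinal.{0} => (ℶ_ o).ord) :=
    isNormal_ord.comp isNormal_beth
  have h2 := Ordinal.cof_map_of_isNormal h1 isSuccLimit_omega_one
  unfold lam
  rw [← cof_omega_one]
  exact h2

theorem lam_lt : lam < lam ^ (ℵ_ 1 : Cardinal.{0}) := by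
  have h := lt_power_cof_ord aleph0_le_lam
  rwa [cof_lam] at h

theorem lam_pow : lam ^ ℵ₀ ≤ lam := by
  set L : Type := lam.out with hL
  have hLl : #L = lam := mk_out _
  have h2 : #(ℕ × L) = lam := by
    rw [mk_prod]
    simp only [Cardinal.lift_id, mk_nat, hLl]
    exact mul_eq_right aleph0_le_lam aleph0_le_lam aleph0_ne_zero
  have h1 := mk_subset_mk_lt_cof (α := ℕ × L) (by rw [h2]; exact lam_strong.isStrongPrelimit)
  rw [h2, cof_lam] at h1
  have h3 : lam ^ ℵ₀ = #(ℕ → L) := by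
    rw [← power_def, mk_nat, hLl]
  have h4 : ∀ g : ℕ → L, #{x : ℕ × L | x.2 = g x.1} < ℵ_ 1 := by
    intro g
    have : {x : ℕ × L | x.2 = g x.1} = range (fun n => (n, g n)) := by
      ext ⟨n, a⟩
      constructor
      · intro h
        exact ⟨n, by rw [Prod.mk.injEq]; exact ⟨rfl, h.symm⟩⟩
      · rintro ⟨m, hm⟩
        simp only [Prod.mk.injEq] at hm
        obtain ⟨rfl, rfl⟩ := hm
        rfl
    rw [this]
    exact mk_range_le.trans_lt (by rw [mk_nat]; exact aleph0_lt_aleph_one)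
  rw [h3]
  refine le_trans ?_ h1.le
  refine mk_le_of_injective (f := fun g : ℕ → L =>
    (⟨{x | x.2 = g x.1}, h4 g⟩ : {s : Set (ℕ × L) // #s < ℵ_ 1})) ?_
  intro g g' h
  funext n
  have h4 : {x : ℕ × L | x.2 = g x.1} = {x : ℕ × L | x.2 = g' x.1} :=
    congrArg Subtype.val h
  have h5 : (n, g n) ∈ {x : ℕ × L | x.2 = g x.1} := rfl
  rw [h4] at h5
  exact h5

theorem two_pow_le : (2 : Cardinal.{0}) ^ (ℵ_ 1 : Cardinal.{0}) ≤ lam := by
  refine (lam_strong.isStrongPrelimit ?_).le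
  refine (aleph_le_beth 1).trans_lt (beth_lt_beth.2 ?_)
  exact Ordinal.one_lt_omega0.trans (Ordinal.omega0_lt_omega_one)

/-- There is a model of ZFC in which Q1 fails. -/
theorem exists_model : ∃ (M : Type 1) (E : M → M → Prop), ModelZFC M E ∧ ¬ Q1 E := by
  set L : Type := lam.out with hL
  have hLl : #L = lam := mk_out _
  set K : Type := (Ordinal.omega 1).ToType with hK
  have hKc : #K = ℵ_ 1 := by
    rw [hK]
    simp
  have hKinf : Infinite K := by
    rw [infinite_iff, hKc]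
    exact aleph0_le_aleph 1
  have hπ : Nonempty (K ≃ K × ℕ) := by
    rw [← Cardinal.eq, mk_prod]
    simp only [Cardinal.lift_id, mk_nat, hKc]
    exact (mul_eq_left (aleph0_le_aleph 1) (aleph0_le_aleph 1) aleph0_ne_zero).symm
  obtain ⟨π⟩ := hπ
  obtain ⟨U, _⟩ := Ultra.exists_mem (B := CA (L × ℕ)) (em_ne_bot ⟨∅, by simp⟩)
  refine ⟨BVM.Mod U, E U, modelZFC U, fun hQ1 => ?_⟩
  have hinf : IsInf (E U) (q U (kn (CA (L × ℕ)) K)) := by
    intro w hw
    rw [eq_omega hw]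
    exact cardLe_of (x := num) (y := fun a : (univ : Set K) => onm _ a.1)
      (fun i i' U h => num_inj h) (fun i i' U h => Subtype.ext (onm_inj h))
      (fun n => ⟨Infinite.natEmbedding K n, mem_univ _⟩)
      (fun n m h => (Infinite.natEmbedding K).injective (congrArg Subtype.val h))
  obtain ⟨w, q', hw, hq, X, S, hX, ⟨J, hJ⟩, D, hD1, hD2, hD3⟩ := hQ1 _ hinf
  rw [eq_omega hw] at hq hX hD1 hD2
  obtain ⟨P, hP⟩ := (modelZFC U).power (q U (kn (CA (L × ℕ)) K))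
  obtain ⟨H, hH⟩ := hD3 P hP
  obtain ⟨Qn, rfl⟩ := q_surj q'
  obtain ⟨Xn, rfl⟩ := q_surj X
  obtain ⟨Sn, rfl⟩ := q_surj S
  obtain ⟨Jn, rfl⟩ := q_surj J
  obtain ⟨Dn, rfl⟩ := q_surj D
  obtain ⟨Pn, rfl⟩ := q_surj P
  obtain ⟨Hn, rfl⟩ := q_surj H
  exact refute (K := K) (L := L) π (k := ℵ_ 1) (l := lam) (aleph0_le_aleph 1) hKc.le two_pow_le
    hLl.le lam_pow (by rw [hLl, hKc]; exact lam_lt) Qn Xn Sn Dn Pn Jn Hn U
    ⟨hq, hX.base, hJ, hD1, hD2, hP, hH.1⟩

end Pool.Agent.Lib.P254f8a
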