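import Pool.Agent.Lib.P254f8a.BVs
import Pool.Agent.Lib.P254f8a.Comb

/-!
# The failure of Q1 in the Cohen extension
-/

set_option autoImplicit false

open Set Cardinal

namespace Pool.Agent.Lib.P254f8a

open Pool.Agent.Lib.BVM Pool.Agent.Lib.BVM.bSet Pool.Agent.Lib.Pe09daa.Str
  Pool.Agent.Lib.Pe09daa.Neg Pool.Agent.Lib.P7aa9af

/-! ### Subsets given by Cohen reals -/

section subsets

variable {K L : Type} [LinearOrder K] [WellFoundedLT K] (π : K ≃ K × ℕ)

/-- the set of ground model elements of `K` -/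
noncomputable abbrev kn (B : Type) [CompleteBooleanAlgebra B] (K : Type) [LinearOrder K]
    [WellFoundedLT K] : bSet B := snm B (univ : Set K)

/-- the subset of `K` given by the Cohen reals with indices `e k` -/
noncomputable def sn (e : K → L) : bSet (CA (L × ℕ)) :=
  mk K (onm _) (fun i => em (bit (e (π i).1, (π i).2) true))

theorem E_sn {e : K → L} {U : Ultra (CA (L × ℕ))} {i : K} :
    E U (q U (onm _ i)) (q U (sn π e)) ↔ em (bit (e (π i).1, (π i).2) true) ∈ U := by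
  constructor
  · intro h
    refine of_mem (X := sn π e) (Z := onm _ i)
      (P := fun U => em (bit (e (π i).1, (π i).2) true) ∈ U) (BV.of_mem _) (BV.const True)
      (fun j U' h1 h2 _ => ?_) h trivial
    have h3 : i = j := onm_inj h2
    rw [h3]
    exact h1
  · intro h
    exact E_func (X := sn π e) i h

theorem sn_subs (e : K → L) (U : Ultra (CA (L × ℕ))) :
    Subs (E U) (q U (sn π e)) (q U (kn _ K)) := by
  intro z hz
  obtain ⟨Z, rfl⟩ := q_surj z
  refine of_mem (X := sn π e) (Z := Z) (P := fun U => E U (q U Z) (q U (kn _ K)))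
    (BV.mem _ _) (BV.const True) (fun j U' _ h2 _ => ?_) hz trivial
  rw [h2]
  exact E_snm (mem_univ _)

theorem sn_ne {e e' : K → L} (hne : e ≠ e') (U : Ultra (CA (L × ℕ))) :
    q U (sn π e) ≠ q U (sn π e') := by
  intro h
  rw [q_eq] at h
  have hb : beq (sn π e) (sn π e') ≠ ⊥ := fun h0 => Ultra.bot (h0 ▸ h)
  obtain ⟨i, hi⟩ : ∃ i, e i ≠ e' i := by
    by_contra hcon
    push Not at hcon
    exact hne (funext hcon)
  obtain ⟨n, p, h1, h2, h3⟩ := exists_split hi hb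
  obtain ⟨U', hU'⟩ := Ultra.exists_mem (em_ne_bot p)
  have h4 : q U' (sn π e) = q U' (sn π e') := q_eq.2 (Ultra.mono hU' h1)
  have h5 : E U' (q U' (onm _ (π.symm (i, n)))) (q U' (sn π e)) := by
    rw [E_sn]
    simpa using Ultra.mono hU' h2
  rw [h4, E_sn] at h5
  have h6 := Ultra.mono hU' h3
  simp only [Equiv.apply_symm_apply] at h5
  exact Ultra.not_iff.1 h6 h5

end subsets

/-- Pigeonhole. -/
theorem exists_fiber {I V : Type} {l : Cardinal.{0}} (hl : ℵ₀ ≤ l) (hV : #V ≤ l) (f : I → V)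
    {J : Set I} (hJ : l < #J) : ∃ v, l < #{i | i ∈ J ∧ f i = v} := by
  by_contra hcon
  push Not at hcon
  have h1 : #J ≤ l := by
    have h3 : J = ⋃ v : V, {i | i ∈ J ∧ f i = v} := by
      ext i; simp
    rw [h3]
    refine (mk_iUnion_le _).trans ?_
    exact (mul_le_mul' hV (ciSup_le' hcon)).trans (mul_eq_self hl).le
  exact absurd hJ (not_lt.2 h1)

theorem exists_ne_of_lt {I V : Type} {l : Cardinal.{0}} (hV : #V ≤ l) (f : I → V)
    {J : Set I} (hJ : l < #J) : ∃ i ∈ J, ∃ j ∈ J, i ≠ j ∧ f i = f j := by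
  by_contra hcon
  push Not at hcon
  have h1 : #J ≤ #V := mk_le_of_injective (f := fun i : J => f i.1) fun i j hij => by
    by_contra hne
    exact hcon i.1 i.2 j.1 j.2 (fun h => hne (Subtype.ext h)) hij
  exact absurd hJ (not_lt.2 (h1.trans hV))

section main

variable {K L : Type} [LinearOrder K] [WellFoundedLT K]

/-- The data of the counterexample to be refuted. -/
def Phi (W Q X S D P J H : bSet (CA (L × ℕ))) (U : Ultra (CA (L × ℕ))) : Prop :=
  IsDLO (E U) (q U W) (q U Q) ∧ IsBase (E U) (q U X) (q U S) ∧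
  IsInjection (E U) (q U J) (q U S) (q U (kn _ K)) ∧
  (∀ f, E U f (q U D) → IsSepCont (E U) (q U W) (q U Q) (q U X) (q U S) f) ∧
  IsDiscrete (E U) (q U W) (q U Q) (q U X) (q U D) ∧
  IsPow (E U) (q U (kn _ K)) (q U P) ∧ IsInjection (E U) (q U H) (q U P) (q U D)

theorem bvPhi (W Q X S D P J H : bSet (CA (L × ℕ))) : BV (Phi (K := K) W Q X S D P J H) :=
  (bvDLO W Q).and ((bvBase X S).and ((bvInj J S (kn _ K)).and
    ((BV.all fun f => (BV.mem _ _).imp (bvSepCont W Q X S f)).and ((bvDiscrete W Q X D).and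
      ((bvPow (kn _ K) P).and (bvInj H P D))))))


theorem refute (π : K ≃ K × ℕ) {k l : Cardinal.{0}} (hk : ℵ₀ ≤ k) (hKk : #K ≤ k)
    (hkl : 2 ^ k ≤ l) (hL : #L ≤ l) (hll : l ^ ℵ₀ ≤ l) (hlk : l < #L ^ #K)
    (Q X S D P J H : bSet (CA (L × ℕ))) (U0 : Ultra (CA (L × ℕ)))
    (hU0 : Phi (K := K) omega Q X S D P J H U0) : False := by
  classical
  have h2k : ℵ₀ ≤ (2 : Cardinal) ^ k := hk.trans (cantor k).le
  have hl : ℵ₀ ≤ l := h2k.trans hkl
  have hLN : #(L × ℕ) ≤ l := by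
    rw [mk_prod]
    simp only [lift_id, mk_nat]
    exact (mul_le_mul' hL hl).trans (mul_eq_self hl).le
  set b0 : CA (L × ℕ) := bv (Phi (K := K) omega Q X S D P J H) with hb0
  have hPhi : ∀ U, b0 ∈ U → Phi (K := K) omega Q X S D P J H U :=
    fun U hU => ((bvPhi omega Q X S D P J H).iff U).2 hU
  have hb0U : b0 ∈ U0 := ((bvPhi omega Q X S D P J H).iff U0).1 hU0
  have hb0ne : b0 ≠ ⊥ := fun h => Ultra.bot (h ▸ hb0U)
  -- the names of elements of `D`
  have hF : ∀ e : K → L, ∃ F : bSet (CA (L × ℕ)), ∀ U,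
      (∃ m, App (E U) (q U H) (q U (sn π e)) m) → App (E U) (q U H) (q U (sn π e)) (q U F) :=
    fun e => max_name (P := fun U m => App (E U) (q U H) (q U (sn π e)) m)
      (fun x => BV.app _ _ _)
  choose F hF using hF
  have hF1 : ∀ e U, b0 ∈ U → App (E U) (q U H) (q U (sn π e)) (q U (F e)) := by
    intro e U hU
    obtain ⟨-, -, -, -, -, hP, hH⟩ := hPhi U hU
    apply hF
    exact (hH.1.1.2 _ ((hP _).2 (sn_subs π e U))).exists
  have hF2 : ∀ e U, b0 ∈ U → E U (q U (F e)) (q U D) := by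
    intro e U hU
    obtain ⟨-, -, -, -, -, hP, hH⟩ := hPhi U hU
    exact hH.1.2 _ _ (hF1 e U hU)
  have hF3 : ∀ e e' U, b0 ∈ U → e ≠ e' → q U (F e) ≠ q U (F e') := by
    intro e e' U hU hne heq
    obtain ⟨-, -, -, -, -, hP, hH⟩ := hPhi U hU
    have h1 := hF1 e U hU
    rw [heq] at h1
    exact sn_ne π hne U (hH.2 _ _ _ h1 (hF1 e' U hU))
  -- the isolating boxes
  have hN : ∀ e : K → L, ∃ N : bSet (CA (L × ℕ)), ∀ U,
      (∃ n x y a b, Iso (E U) (q U omega) (q U Q) (q U X) (q U D) (q U (F e)) n x y a b) →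
      ∃ x y a b, Iso (E U) (q U omega) (q U Q) (q U X) (q U D) (q U (F e)) (q U N) x y a b :=
    fun e => max_name (P := fun U n => ∃ x y a b,
      Iso (E U) (q U omega) (q U Q) (q U X) (q U D) (q U (F e)) n x y a b)
      (fun n => BV.ex fun x => BV.ex fun y => BV.ex fun a => BV.ex fun b => bvIso _ _ _ _ _ _ _ _ _ _)
  choose N hN using hN
  have hX : ∀ e : K → L, ∃ Xn : bSet (CA (L × ℕ)), ∀ U,
      (∃ x y a b, Iso (E U) (q U omega) (q U Q) (q U X) (q U D) (q U (F e)) (q U (N e)) x y a b) →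
      ∃ y a b, Iso (E U) (q U omega) (q U Q) (q U X) (q U D) (q U (F e)) (q U (N e))
        (q U Xn) y a b :=
    fun e => max_name (P := fun U x => ∃ y a b,
      Iso (E U) (q U omega) (q U Q) (q U X) (q U D) (q U (F e)) (q U (N e)) x y a b)
      (fun x => BV.ex fun y => BV.ex fun a => BV.ex fun b => bvIso _ _ _ _ _ _ _ _ _ _)
  choose Xn hX using hX
  have hY : ∀ e : K → L, ∃ Yn : bSet (CA (L × ℕ)), ∀ U,
      (∃ y a b, Iso (E U) (q U omega) (q U Q) (q U X) (q U D) (q U (F e)) (q U (N e))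
        (q U (Xn e)) y a b) →
      ∃ a b, Iso (E U) (q U omega) (q U Q) (q U X) (q U D) (q U (F e)) (q U (N e))
        (q U (Xn e)) (q U Yn) a b :=
    fun e => max_name (P := fun U y => ∃ a b,
      Iso (E U) (q U omega) (q U Q) (q U X) (q U D) (q U (F e)) (q U (N e)) (q U (Xn e)) y a b)
      (fun y => BV.ex fun a => BV.ex fun b => bvIso _ _ _ _ _ _ _ _ _ _)
  choose Yn hY using hY
  have hIso : ∀ e U, b0 ∈ U → ∃ a b, Iso (E U) (q U omega) (q U Q) (q U X) (q U D) (q U (F e))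
      (q U (N e)) (q U (Xn e)) (q U (Yn e)) a b := by
    intro e U hU
    obtain ⟨-, -, -, -, hD, -, -⟩ := hPhi U hU
    exact hY e U (hX e U (hN e U (hD _ (hF2 e U hU))))
  -- decide the length
  have hp : ∀ e : K → L, ∃ (p : Cn (L × ℕ)) (n : ℕ), em p ≤ b0 ∧
      ∀ U, em p ∈ U → q U (N e) = q U (num n) := by
    intro e
    obtain ⟨p, hp⟩ := exists_em hb0ne
    have h1 : em p ≤ ⨆ n : ℕ, (⊤ : CA (L × ℕ)) ⊓ beq (N e) (num n) := by
      refine Ultra.le_of_forall fun U hU => ?_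
      obtain ⟨a, b, h2⟩ := hIso e U (Ultra.mono hU hp)
      exact E_q.1 h2.1
    obtain ⟨p', h2, n, h3⟩ := exists_em_iSup h1
    exact ⟨p', n, (em_mono h2).trans hp, fun U hU => q_eq.2 (Ultra.mono hU (h3.trans inf_le_right))⟩
  choose p n hp1 hp2 using hp
  -- names of the points
  have hx : ∀ (e : K → L) (j : ℕ), ∃ x : bSet (CA (L × ℕ)), ∀ U,
      (∃ m, App (E U) (q U (Xn e)) (q U (num j)) m) →
        App (E U) (q U (Xn e)) (q U (num j)) (q U x) :=
    fun e j => max_name (P := fun U m => App (E U) (q U (Xn e)) (q U (num j)) m)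
      (fun x => BV.app _ _ _)
  choose x hx using hx
  have hy : ∀ (e : K → L) (j : ℕ), ∃ y : bSet (CA (L × ℕ)), ∀ U,
      (∃ m, App (E U) (q U (Yn e)) (q U (num j)) m) →
        App (E U) (q U (Yn e)) (q U (num j)) (q U y) :=
    fun e j => max_name (P := fun U m => App (E U) (q U (Yn e)) (q U (num j)) m)
      (fun y => BV.app _ _ _)
  choose y hy using hy
  have hx1 : ∀ e j U, em (p e) ∈ U → j < n e →
      App (E U) (q U (Xn e)) (q U (num j)) (q U (x e j)) ∧ E U (q U (x e j)) (q U X) := by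
    intro e j U hU hj
    obtain ⟨a, b, h1⟩ := hIso e U (Ultra.mono hU (hp1 e))
    have h2 := h1.2.1
    rw [hp2 e U hU] at h2
    have h3 := hx e j U (h2.1.2 _ (E_num_num.2 hj)).exists
    exact ⟨h3, h2.2 _ _ h3⟩
  have hy1 : ∀ e j U, em (p e) ∈ U → j < n e →
      App (E U) (q U (Yn e)) (q U (num j)) (q U (y e j)) ∧ E U (q U (y e j)) (q U X) := by
    intro e j U hU hj
    obtain ⟨a, b, h1⟩ := hIso e U (Ultra.mono hU (hp1 e))
    have h2 := h1.2.2.1
    rw [hp2 e U hU] at h2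
    have h3 := hy e j U (h2.1.2 _ (E_num_num.2 hj)).exists
    exact ⟨h3, h2.2 _ _ h3⟩
  -- fix the condition
  obtain ⟨p0, hp0⟩ := exists_fiber hl (mk_Cn_le hl hLN) p (J := (univ : Set (K → L)))
    (by rw [mk_univ, ← power_def]; exact hlk)
  -- traces of the points
  let pt : (K → L) → Bool × ℕ × K → bSet (CA (L × ℕ)) :=
    fun e c => if c.1 then x e c.2.1 else y e c.2.1
  let Tr : (K → L) → Bool × ℕ × K → Ultra (CA (L × ℕ)) → Prop := fun e c U =>
    ∃ V, E U V (q U S) ∧ App (E U) (q U J) V (q U (onm _ c.2.2)) ∧ E U (q U (pt e c)) V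
  have hTr : ∀ e c, BV (Tr e c) := fun e c => BV.ex fun V => (BV.mem _ _).and
    ((BV.app _ _ _).and (BV.mem _ _))
  have hr : ∀ (e : K → L) (c : Bool × ℕ × K), ∃ h : ℕ → Cn (L × ℕ),
      bv (Tr e c) ≠ ⊥ → ⨆ m, em (h m) = bv (Tr e c) := by
    intro e c
    by_cases h0 : bv (Tr e c) = ⊥
    · exact ⟨fun _ => p0, fun h => absurd h0 h⟩
    · obtain ⟨h, hh⟩ := exists_repr h0
      exact ⟨h, fun _ => hh⟩
  choose r hr using hr
  have hcard : #(Bool × ℕ × K) ≤ k := by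
    rw [mk_prod, mk_prod]
    simp only [lift_id, mk_nat]
    exact (mul_le_mul' (mk_le_aleph0.trans hk) ((mul_le_mul' hk hKk).trans
      (mul_eq_self hk).le)).trans (mul_eq_self hk).le
  have hΓ : #((Bool × ℕ × K) × ℕ) ≤ k := by
    rw [mk_prod]
    simp only [lift_id, mk_nat]
    exact (mul_le_mul' hcard hk).trans (mul_eq_self hk).le
  have hT : #(ℕ × Set (Bool × ℕ × K)) ≤ 2 ^ k := by
    rw [mk_prod, mk_set]
    simp only [lift_id, mk_nat]
    exact (mul_le_mul' h2k (power_le_power_left two_ne_zero hcard)).trans (mul_eq_self h2k).le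
  obtain ⟨G, t, J', d, hJ1, hJ2, hJ3, hd1, hd2⟩ := exists_system hk hΓ hT hkl
    (fun e (γ : (Bool × ℕ × K) × ℕ) => (r e γ.1 γ.2).g)
    (fun e => (n e, {c | bv (Tr e c) = ⊥})) hp0
  -- values
  let Vl : (K → L) → ℕ × ℕ × ℕ × ℕ → Ultra (CA (L × ℕ)) → Prop := fun e c U =>
    ∃ v, App2 (E U) (q U (F e)) (q U (x (d c.2.1) c.1)) (q U (y (d c.2.2.1) c.1)) v ∧
      E U (q U (num c.2.2.2)) v
  have hVl : ∀ e c, BV (Vl e c) := fun e c => BV.ex fun v => (bvApp2 _ _ _ _).and (BV.mem _ _)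
  obtain ⟨e, he, e', he', hne, hvv⟩ := exists_ne_of_lt (l := l)
    (V := ℕ × ℕ × ℕ × ℕ → CA (L × ℕ)) (by
      rw [← power_def]
      refine (power_le_power_right (mk_CA_le hl hLN hll)).trans (le_trans ?_ hll)
      exact power_le_power_left (aleph0_pos.trans_le hl).ne' mk_le_aleph0)
    (fun e c => bv (Vl e c)) hJ2
  -- bookkeeping
  have hpe : p e = p0 := (hJ1 he).2
  have hpe' : p e' = p0 := (hJ1 he').2
  have hpd : ∀ m, p (d m) = p0 := fun m => (hd1 m).1.2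
  have hnd : ∀ m, n (d m) = n e := fun m =>
    (congrArg Prod.fst ((hd1 m).2.1.trans (hJ3 e he).1.symm) : _)
  have hbot : ∀ m c, bv (Tr (d m) c) = ⊥ → bv (Tr e c) = ⊥ := by
    intro m c h
    have h1 : {c | bv (Tr (d m) c) = ⊥} = {c | bv (Tr e c) = ⊥} :=
      (congrArg Prod.snd ((hd1 m).2.1.trans (hJ3 e he).1.symm) : _)
    have h2 : c ∈ {c | bv (Tr (d m) c) = ⊥} := h
    rw [h1] at h2
    exact h2
  have hn' : n e' = n e := (congrArg Prod.fst ((hJ3 e' he').1.trans (hJ3 e he).1.symm) : _)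
  have hb : ∀ U, em p0 ∈ U → b0 ∈ U := fun U hU => Ultra.mono hU (hpe ▸ hp1 e)
  let ptn : (K → L) → Bool → ℕ → bSet (CA (L × ℕ)) := fun e s j => if s then x e j else y e j
  let C : Bool → ℕ → bSet (CA (L × ℕ)) := fun s j => st (fun m : ℕ => ptn (d m) s j)
  -- closure
  have hcl : ∀ s j U, em p0 ∈ U → ∀ V, E U V (q U S) → E U (q U (ptn e s j)) V →
      ∃ z, E U z V ∧ E U z (q U (C s j)) := by
    intro s j U hU V hV hxV
    obtain ⟨Vn, rfl⟩ := q_surj V
    obtain ⟨z, hz⟩ := ((hPhi U (hb U hU)).2.2.1.1.1.2 _ hV).exists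
    have hzK := (hPhi U (hb U hU)).2.2.1.1.2 _ _ hz
    obtain ⟨Zn, rfl⟩ := q_surj z
    refine of_mem_snm (s := univ) (Z := Zn)
      (P := fun U => ∃ z, E U z (q U Vn) ∧ E U z (q U (C s j)))
      (Q := fun U => em p0 ∈ U ∧ E U (q U Vn) (q U S) ∧ E U (q U (ptn e s j)) (q U Vn) ∧
        App (E U) (q U J) (q U Vn) (q U Zn)) (BV.ex fun z => (BV.mem _ _).and (BV.mem _ _))
      ((BV.of_mem _).and ((BV.mem _ _).and ((BV.mem _ _).and (BV.app _ _ _))))
      (fun α _ U hα hQ => ?_) hzK ⟨hU, hV, hxV, hz⟩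
    clear hU hV hxV hz hzK
    obtain ⟨hU, hV, hxV, hz⟩ := hQ
    rw [hα] at hz
    have h1 : Tr e (s, j, α) U := ⟨q U Vn, hV, hz, hxV⟩
    have h2 : bv (Tr e (s, j, α)) ∈ U := ((hTr e (s, j, α)).iff U).1 h1
    have h3 : bv (Tr e (s, j, α)) ≠ ⊥ := fun h => Ultra.bot (h ▸ h2)
    have h4 : bv (Tr e (s, j, α)) ≤ ⨆ m, bv (Tr (d m) (s, j, α)) := by
      rw [← hr e _ h3]
      refine iSup_le fun i => ?_
      refine (em_le_iSup (G := G ((s, j, α), i)) ((hJ3 e he).2 ((s, j, α), i))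
        (d := fun m => r (d m) (s, j, α) i) (fun m => (hd1 m).2.2 ((s, j, α), i))
        (fun m m' hmm => hd2 m m' hmm ((s, j, α), i))).trans ?_
      refine iSup_mono fun m => ?_
      rw [← hr (d m) _ (fun h => h3 (hbot m _ h))]
      exact le_iSup (fun i => em (r (d m) (s, j, α) i)) i
    refine of_iSup (t := fun m => bv (Tr (d m) (s, j, α)))
      (P := fun U => ∃ z, E U z (q U Vn) ∧ E U z (q U (C s j)))
      (Q := fun U => em p0 ∈ U ∧ E U (q U Vn) (q U S) ∧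
        App (E U) (q U J) (q U Vn) (q U (onm _ α))) (BV.ex fun z => (BV.mem _ _).and (BV.mem _ _))
      ((BV.of_mem _).and ((BV.mem _ _).and (BV.app _ _ _)))
      (fun m U ht hQ => ?_) (Ultra.mono h2 h4) ⟨hU, hV, hz⟩
    obtain ⟨hU, hV, hz⟩ := hQ
    obtain ⟨V', hV', hz', hx'⟩ := ((hTr (d m) (s, j, α)).iff U).2 ht
    have h5 : V' = q U Vn := (hPhi U (hb U hU)).2.2.1.2 _ _ _ hz' hz
    rw [h5] at hx'
    exact ⟨_, hx', E_st (x := fun m : ℕ => ptn (d m) s j) m⟩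
  -- points of the space
  have hCX : ∀ s j U, em p0 ∈ U → j < n e → ∀ z, E U z (q U (C s j)) → E U z (q U X) := by
    intro s j U hU hj z hz
    obtain ⟨Zn, rfl⟩ := q_surj z
    refine of_mem_st (Z := Zn) (P := fun U => E U (q U Zn) (q U X)) (Q := fun U => em p0 ∈ U)
      (BV.mem _ _) (BV.of_mem _) (fun m U hm hU => ?_) hz hU
    rw [hm]
    cases s with
    | true => exact (hx1 (d m) j U (by rw [hpd m]; exact hU) (by rw [hnd m]; exact hj)).2
    | false => exact (hy1 (d m) j U (by rw [hpd m]; exact hU) (by rw [hnd m]; exact hj)).2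
  -- agreement on the countable sets
  have hval : ∀ j m m' U, em p0 ∈ U → ∀ c c' : BVM.Mod U,
      App2 (E U) (q U (F e)) (q U (x (d m) j)) (q U (y (d m') j)) c →
      App2 (E U) (q U (F e')) (q U (x (d m) j)) (q U (y (d m') j)) c' →
      ∀ z, E U z c → E U z c' := by
    intro j m m' U hU c c' hc hc' z hz
    obtain ⟨Cn, rfl⟩ := q_surj c
    obtain ⟨Cn', rfl⟩ := q_surj c'
    obtain ⟨Zn, rfl⟩ := q_surj z
    have hzw := (((hPhi U (hb U hU)).2.2.2.1 _ (hF2 e U (hb U hU))).cut (ext_mod U) hc).2.2.sub _ hz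
    refine of_mem_omega (Z := Zn) (P := fun U => E U (q U Zn) (q U Cn'))
      (Q := fun U => em p0 ∈ U ∧
        App2 (E U) (q U (F e)) (q U (x (d m) j)) (q U (y (d m') j)) (q U Cn) ∧
        App2 (E U) (q U (F e')) (q U (x (d m) j)) (q U (y (d m') j)) (q U Cn') ∧
        E U (q U Zn) (q U Cn)) (BV.mem _ _)
      ((BV.of_mem _).and ((bvApp2 _ _ _ _).and ((bvApp2 _ _ _ _).and (BV.mem _ _))))
      (fun i U hi hQ => ?_) hzw ⟨hU, hc, hc', hz⟩
    clear hU hc hc' hz hzw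
    obtain ⟨hU, hc, hc', hz⟩ := hQ
    rw [hi] at hz ⊢
    have h1 : Vl e (j, m, m', i) U := ⟨_, hc, hz⟩
    have h2 : bv (Vl e (j, m, m', i)) ∈ U := ((hVl e _).iff U).1 h1
    have h3 : bv (Vl e (j, m, m', i)) = bv (Vl e' (j, m, m', i)) := congrFun hvv (j, m, m', i)
    rw [h3] at h2
    obtain ⟨v, hv, hv'⟩ := ((hVl e' (j, m, m', i)).iff U).2 h2
    have hsc := (hPhi U (hb U hU)).2.2.2.1 _ (hF2 e' U (hb U hU))
    obtain ⟨h5, h6, _⟩ := hsc.cut (ext_mod U) hc'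
    rw [(hsc.fun2.2 _ _ h5 h6).unique hc' hv]
    exact hv'
  have hval' : ∀ j m m' U, em p0 ∈ U → ∀ c c' : BVM.Mod U,
      App2 (E U) (q U (F e)) (q U (x (d m) j)) (q U (y (d m') j)) c →
      App2 (E U) (q U (F e')) (q U (x (d m) j)) (q U (y (d m') j)) c' →
      ∀ z, E U z c' → E U z c := by
    intro j m m' U hU c c' hc hc' z hz
    obtain ⟨Cn, rfl⟩ := q_surj c
    obtain ⟨Cn', rfl⟩ := q_surj c'
    obtain ⟨Zn, rfl⟩ := q_surj z
    have hzw := (((hPhi U (hb U hU)).2.2.2.1 _ (hF2 e' U (hb U hU))).cut (ext_mod U) hc').2.2.sub _ hz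
    refine of_mem_omega (Z := Zn) (P := fun U => E U (q U Zn) (q U Cn))
      (Q := fun U => em p0 ∈ U ∧
        App2 (E U) (q U (F e)) (q U (x (d m) j)) (q U (y (d m') j)) (q U Cn) ∧
        App2 (E U) (q U (F e')) (q U (x (d m) j)) (q U (y (d m') j)) (q U Cn') ∧
        E U (q U Zn) (q U Cn')) (BV.mem _ _)
      ((BV.of_mem _).and ((bvApp2 _ _ _ _).and ((bvApp2 _ _ _ _).and (BV.mem _ _))))
      (fun i U hi hQ => ?_) hzw ⟨hU, hc, hc', hz⟩
    clear hU hc hc' hz hzw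
    obtain ⟨hU, hc, hc', hz⟩ := hQ
    rw [hi] at hz ⊢
    have h1 : Vl e' (j, m, m', i) U := ⟨_, hc', hz⟩
    have h2 : bv (Vl e' (j, m, m', i)) ∈ U := ((hVl e' _).iff U).1 h1
    have h3 : bv (Vl e (j, m, m', i)) = bv (Vl e' (j, m, m', i)) := congrFun hvv (j, m, m', i)
    rw [← h3] at h2
    obtain ⟨v, hv, hv'⟩ := ((hVl e (j, m, m', i)).iff U).2 h2
    have hsc := (hPhi U (hb U hU)).2.2.2.1 _ (hF2 e U (hb U hU))
    obtain ⟨h5, h6, _⟩ := hsc.cut (ext_mod U) hc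
    rw [(hsc.fun2.2 _ _ h5 h6).unique hc hv]
    exact hv'
  have hag : ∀ j U, em p0 ∈ U → ∀ a b : BVM.Mod U, E U a (q U (C true j)) → E U b (q U (C false j)) →
      ∀ c c', App2 (E U) (q U (F e)) a b c → App2 (E U) (q U (F e')) a b c' → c = c' := by
    intro j U hU a b ha hb'
    obtain ⟨An, rfl⟩ := q_surj a
    obtain ⟨Bn, rfl⟩ := q_surj b
    have hBV : ∀ An Bn : bSet (CA (L × ℕ)), BV (fun U => ∀ c c',
        App2 (E U) (q U (F e)) (q U An) (q U Bn) c →
        App2 (E U) (q U (F e')) (q U An) (q U Bn) c' → c = c') := fun An Bn =>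
      BV.all fun c => BV.all fun c' => (bvApp2 _ _ _ _).imp ((bvApp2 _ _ _ _).imp (BV.eq _ _))
    refine of_mem_st (Z := An) (P := fun U => ∀ c c',
        App2 (E U) (q U (F e)) (q U An) (q U Bn) c →
        App2 (E U) (q U (F e')) (q U An) (q U Bn) c' → c = c')
      (Q := fun U => em p0 ∈ U ∧ E U (q U Bn) (q U (C false j))) (hBV An Bn)
      ((BV.of_mem _).and (BV.mem _ _)) (fun m U hm hQ => ?_) ha ⟨hU, hb'⟩
    clear hU hb' ha
    obtain ⟨hU, hb'⟩ := hQ
    refine of_mem_st (Z := Bn) (P := fun U => ∀ c c',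
        App2 (E U) (q U (F e)) (q U An) (q U Bn) c →
        App2 (E U) (q U (F e')) (q U An) (q U Bn) c' → c = c')
      (Q := fun U => em p0 ∈ U ∧ q U An = q U (ptn (d m) true j)) (hBV An Bn)
      ((BV.of_mem _).and (BV.eq _ _)) (fun m' U hm' hQ => ?_) hb' ⟨hU, hm⟩
    clear hU hb' hm
    obtain ⟨hU, hm⟩ := hQ
    intro c c' hc hc'
    rw [hm, hm'] at hc hc'
    exact ext_mod U c c' fun z => ⟨hval j m m' U hU c c' hc hc' z, hval' j m m' U hU c c' hc hc' z⟩
  -- conclusion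
  obtain ⟨U, hU⟩ := Ultra.exists_mem (em_ne_bot p0)
  have hbU := hb U hU
  obtain ⟨hQ, hS, hJ, hsep, hD, hP, hH⟩ := hPhi U hbU
  obtain ⟨a, b, hI1, hI2, hI3, hI4, hI5, hI6, hI7⟩ := hIso e U hbU
  have hsc := hsep _ (hF2 e U hbU)
  have hsc' := hsep _ (hF2 e' U hbU)
  refine hF3 e e' U hbU hne (hI7 _ (hF2 e' U hbU) ?_).symm
  intro i xi yi ai bi c hi hxi hyi hai hbi hc
  have hi' := hi
  rw [hp2 e U (by rw [hpe]; exact hU)] at hi'
  obtain ⟨j, hj, rfl⟩ := (E_num _).1 hi'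
  have hx2 := hx1 e j U (by rw [hpe]; exact hU) hj
  have hy2 := hy1 e j U (by rw [hpe]; exact hU) hj
  obtain rfl := app_unique hI2.1 hi hxi hx2.1
  obtain rfl := app_unique hI3.1 hi hyi hy2.1
  obtain ⟨c', hc'⟩ := (hsc.fun2.2 _ _ hx2.2 hy2.2).exists
  have heq : c' = c := agree (ext_mod U) hQ hS hsc hsc'
    (C := fun z => E U z (q U (C true j))) (D := fun z => E U z (q U (C false j)))
    (hCX true j U hU hj) (hCX false j U hU hj)
    (fun a b c c' ha hb' hc hc' => hag j U hU a b ha hb' c c' hc hc') hx2.2 hy2.2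
    (hcl true j U hU) (hcl false j U hU) hc' hc
  rw [← heq]
  exact hI6 _ _ _ _ _ _ hi hxi hyi hai hbi hc'

end main

end Pool.Agent.Lib.P254f8a
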