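import Pool.Agent.Lib.P254f8a.Defs
import Pool.Agent.Lib.BVM.Facts

/-!
# Separately continuous functions that agree on a set agree on its closure
-/

set_option autoImplicit false

namespace Pool.Agent.Lib.P254f8a

open Pool.Agent.Lib.BVM Pool.Agent.Lib.Pe09daa.Str Pool.Agent.Lib.P7aa9af

universe u

variable {M : Type u} {E : M → M → Prop}

theorem one_aux {w q X S : M} (hq : IsDLO E w q) (hS : IsBase E X S) {R R' : M → M → Prop}
    (hR : Cont E w q X S R) (hR' : Cont E w q X S R')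
    (tot : ∀ x, E x X → ∃ c, R x c) (tot' : ∀ x, E x X → ∃ c, R' x c)
    (cut : ∀ x c, E x X → R x c → IsCut E w q c) (cut' : ∀ x c, E x X → R' x c → IsCut E w q c)
    {C : M → Prop} (hC : ∀ x, C x → E x X) (ag : ∀ x c c', C x → R x c → R' x c' → c = c')
    {x : M} (hx : E x X) (hcl : ∀ V, E V S → E x V → ∃ y, E y V ∧ C y) {c c' : M}
    (h : R x c) (h' : R' x c') {z : M} (hz : E z c') : E z c := by
  by_contra hzc
  have hc := cut x c hx h
  have hc' := cut' x c' hx h'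
  have hzw := hc'.sub z hz
  obtain ⟨a, haw, hac, hza⟩ := hc'.noMax z hzw hz
  obtain ⟨l, hlw, hlc⟩ := hc.ne
  obtain ⟨y, hyw, hyc⟩ := hc'.proper
  obtain ⟨t, htw, hyt⟩ := hq.noMax y hyw
  obtain ⟨V, hV, hxV, hV'⟩ := hR x c hx h l a hlw haw ⟨hlc, z, hzw, hzc, hza⟩
  obtain ⟨W, hW, hxW, hW'⟩ := hR' x c' hx h' a t haw htw ⟨hac, y, hyw, hyc, hyt⟩
  obtain ⟨Z, hZ, hxZ, hZV, hZW⟩ := hS.inter V W x hV hW hxV hxW
  obtain ⟨x', hx'Z, hx'C⟩ := hcl Z hZ hxZ
  obtain ⟨d, hd⟩ := tot x' (hC _ hx'C)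
  obtain ⟨d', hd'⟩ := tot' x' (hC _ hx'C)
  have h1 := hV' x' d (hZV _ hx'Z) hd
  have h2 := hW' x' d' (hZW _ hx'Z) hd'
  have h3 := ag x' d d' hx'C hd hd'
  rw [← h3] at h2
  obtain ⟨_, y', hy'w, hy'd, hy'a⟩ := h1
  exact hy'd ((cut x' d (hC _ hx'C) hd).down y' a hy'w haw hy'a h2.1)

theorem one_var (hext : ∀ x y, (∀ z, E z x ↔ E z y) → x = y) {w q X S : M} (hq : IsDLO E w q)
    (hS : IsBase E X S) {R R' : M → M → Prop}
    (hR : Cont E w q X S R) (hR' : Cont E w q X S R')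
    (tot : ∀ x, E x X → ∃ c, R x c) (tot' : ∀ x, E x X → ∃ c, R' x c)
    (cut : ∀ x c, E x X → R x c → IsCut E w q c) (cut' : ∀ x c, E x X → R' x c → IsCut E w q c)
    {C : M → Prop} (hC : ∀ x, C x → E x X) (ag : ∀ x c c', C x → R x c → R' x c' → c = c')
    {x : M} (hx : E x X) (hcl : ∀ V, E V S → E x V → ∃ y, E y V ∧ C y) {c c' : M}
    (h : R x c) (h' : R' x c') : c = c' := by
  apply hext
  intro z
  constructor
  · exact one_aux hq hS hR' hR tot' tot cut' cut hC (fun x c c' h1 h2 h3 => (ag x c' c h1 h3 h2).symm)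
      hx hcl h' h
  · exact one_aux hq hS hR hR' tot tot' cut cut' hC ag hx hcl h h'

theorem IsSepCont.cut (_hext : ∀ x y, (∀ z, E z x ↔ E z y) → x = y) {w q X S f : M}
    (hf : IsSepCont E w q X S f) {x y c : M} (h : App2 E f x y c) :
    E x X ∧ E y X ∧ IsCut E w q c := by
  obtain ⟨p, hp, t, ht, htf⟩ := h
  obtain ⟨x', y', p', c', h1, h2, h3, h4, h5⟩ := hf.fun2.1 t htf
  obtain ⟨h6, h7⟩ := pair_inj ht h4
  subst h6 h7
  obtain ⟨h8, h9⟩ := pair_inj hp h3
  subst h8 h9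
  exact ⟨h1, h2, h5⟩

/-- Two separately continuous functions that agree on a product of two sets agree on the product
of the closures. -/
theorem agree (hext : ∀ x y, (∀ z, E z x ↔ E z y) → x = y) {w q X S f g : M} (hq : IsDLO E w q)
    (hS : IsBase E X S) (hf : IsSepCont E w q X S f) (hg : IsSepCont E w q X S g)
    {C D : M → Prop} (hC : ∀ x, C x → E x X) (hD : ∀ x, D x → E x X)
    (ag : ∀ x y c c', C x → D y → App2 E f x y c → App2 E g x y c' → c = c')
    {x y : M} (hx : E x X) (hy : E y X) (hxC : ∀ V, E V S → E x V → ∃ y, E y V ∧ C y)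
    (hyD : ∀ V, E V S → E y V → ∃ z, E z V ∧ D z) {c c' : M}
    (h : App2 E f x y c) (h' : App2 E g x y c') : c = c' := by
  have tot : ∀ f, IsSepCont E w q X S f → ∀ x y, E x X → E y X → ∃ c, App2 E f x y c :=
    fun f hf x y hx hy => (hf.fun2.2 x y hx hy).exists
  have h1 : ∀ y', D y' → ∀ x', E x' X → (∀ V, E V S → E x' V → ∃ y, E y V ∧ C y) →
      ∀ c c', App2 E f x' y' c → App2 E g x' y' c' → c = c' := by
    intro y' hy' x' hx' hcl c c' h1 h2
    exact one_var hext hq hS (hf.left y' (hD _ hy')) (hg.left y' (hD _ hy'))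
      (fun x hx => tot f hf x y' hx (hD _ hy')) (fun x hx => tot g hg x y' hx (hD _ hy'))
      (fun x c _ h => (hf.cut hext h).2.2) (fun x c _ h => (hg.cut hext h).2.2) hC
      (fun x c c' h3 h4 h5 => ag x y' c c' h3 hy' h4 h5) hx' hcl h1 h2
  exact one_var hext hq hS (hf.right x hx) (hg.right x hx)
      (fun y hy => tot f hf x y hx hy) (fun y hy => tot g hg x y hx hy)
      (fun y c _ h => (hf.cut hext h).2.2) (fun y c _ h => (hg.cut hext h).2.2) hD
      (fun y c c' h3 h4 h5 => h1 y h3 x hx hxC c c' h4 h5) hy hyD h h'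

end Pool.Agent.Lib.P254f8a
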